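import Mathlib
import Pool.Agent.T6.H32.OP.Problem
import Pool.Agent.T6.H32.OP.FIN

/-!
MP_da270e_gt, Q2 (helper32, with helper50 and helper54): the smooth Riemannian metrics on the
two-sphere with property (O) are not dense in the space of all smooth Riemannian metrics with the
`C^∞` topology. (In fact the metric `exp (2 ε u) g₀`, `u` an explicit odd function, `ε` small, has
a whole `C¹`-neighbourhood of metrics without property (O).)
-/

set_option autoImplicit false

open Pool.Agent.T6.H32.OP

namespace Pool.Agent.Results.MP_da270e_gt.OppositeSegmentsNotDense

/-- The smooth Riemannian metrics on the two-sphere with property (O) are not dense in the space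
of all smooth Riemannian metrics, for the `C^∞` topology. -/
theorem result : ¬ Dense {G : RMetric | PropertyO G.g} := final

end Pool.Agent.Results.MP_da270e_gt.OppositeSegmentsNotDense
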